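import Pool.Agent.Lib_MP_c83083_ins.Core

/-!
# Properly coloured Hamilton cycles under monochromatic degree `n / 2`

An edge-coloured multigraph with vertex set `V` and set of colours `C` is given by its colour
classes `G c`, `c : C` (simple graphs on `V`; edges of different colours may be parallel).
-/

set_option autoImplicit false

namespace Pool.Agent.Results.MP_c83083_co.AlternatingCycles

/-- `x 0, …, x (k - 1)` (indices modulo `k`) are the vertices of a properly coloured cycle of
length `k ≥ 2`: they are distinct, `x t` and `x (t + 1)` are joined by an edge of colour `col t`,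
and consecutive edges have different colours. -/
def IsPCCycle {V C : Type*} (G : C → SimpleGraph V) (k : ℕ) (x : ZMod k → V) (col : ZMod k → C) :
    Prop :=
  2 ≤ k ∧ Function.Injective x ∧ ∀ t, (G (col t)).Adj (x t) (x (t + 1)) ∧ col t ≠ col (t + 1)

/-- the number of neighbours of `v` in the graph `H` -/
noncomputable def nbr {V : Type*} (H : SimpleGraph V) (v : V) : ℕ := {w | H.Adj v w}.ncard

/-- **Theorem.** Let `n ≥ 2` be the number of vertices and let `i ≠ j` be two colours in which
every vertex has at least `n / 2` neighbours. If `n` is even, there is a Hamilton cycle alternating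
between the colours `i` and `j`. If `n` is odd, then for every vertex `v₀` there is a cycle of
length `n - 1` through all vertices except `v₀` which alternates between `i` and `j`; and if `k` is a
third colour in which `v₀` has at least `(n - 1) / 2` neighbours, there is a properly coloured
Hamilton cycle with exactly one edge of a colour other than `i` and `j`: it has colour `k` and
is incident with `v₀`. -/
theorem result {V C : Type*} [Fintype V] (G : C → SimpleGraph V) (hn : 2 ≤ Fintype.card V)
    (i j : C) (hij : i ≠ j) (hi : ∀ v, Fintype.card V ≤ 2 * nbr (G i) v)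
    (hj : ∀ v, Fintype.card V ≤ 2 * nbr (G j) v) :
    (Even (Fintype.card V) → ∃ x col, IsPCCycle G (Fintype.card V) x col ∧
      ∀ t, col t = i ∨ col t = j) ∧
    (Odd (Fintype.card V) → ∀ v₀ : V,
      (∃ (l : ℕ) (x : ZMod l → V) (col : ZMod l → C), l + 1 = Fintype.card V ∧ IsPCCycle G l x col ∧
        (∀ t, x t ≠ v₀) ∧ ∀ t, col t = i ∨ col t = j) ∧
      ∀ k : C, k ≠ i → k ≠ j → Fintype.card V ≤ 2 * nbr (G k) v₀ + 1 →
        ∃ x col, IsPCCycle G (Fintype.card V) x col ∧ x 0 = v₀ ∧ col 0 = k ∧
          ∀ t, t ≠ 0 → col t = i ∨ col t = j) := by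
  classical
  refine ⟨?_, ?_⟩
  · rintro ⟨m, hm⟩
    have hm2 : Fintype.card V = 2 * m := by omega
    rw [hm2] at hi hj hn ⊢
    obtain ⟨x, col, h1, h2, h3⟩ := Lib_MP_c83083_ins.cyc_even G m (by omega) hm2 i j hij
      (fun v => Nat.le_of_mul_le_mul_left (hi v) (by norm_num))
      (fun v => Nat.le_of_mul_le_mul_left (hj v) (by norm_num))
    exact ⟨x, col, ⟨hn, h1, h2⟩, h3⟩
  · rintro ⟨m, hm⟩ v₀
    rw [hm] at hi hj hn ⊢
    have hm1 : 1 ≤ m := by omega
    have hi' : ∀ v, m + 1 ≤ ((G i).neighborSet v).ncard := fun v => by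
      have h := hi v
      unfold nbr at h
      change 2 * m + 1 ≤ 2 * ((G i).neighborSet v).ncard at h
      omega
    have hj' : ∀ v, m + 1 ≤ ((G j).neighborSet v).ncard := fun v => by
      have h := hj v
      unfold nbr at h
      change 2 * m + 1 ≤ 2 * ((G j).neighborSet v).ncard at h
      omega
    refine ⟨?_, ?_⟩
    · obtain ⟨x, col, h1, h2, h3, h4⟩ := Lib_MP_c83083_ins.cyc_avoid G m hm1 hm i j hij hi' hj' v₀
      exact ⟨2 * m, x, col, rfl, ⟨by omega, h1, h2⟩, h3, h4⟩
    · intro k hki hkj hk
      have hk' : m ≤ ((G k).neighborSet v₀).ncard := by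
        unfold nbr at hk
        change 2 * m + 1 ≤ 2 * ((G k).neighborSet v₀).ncard + 1 at hk
        omega
      obtain ⟨x, col, h1, h2, h3, h4, h5⟩ := Lib_MP_c83083_ins.cyc_insert G m hm1 hm i j k hij
        hki.symm hkj.symm hi' hj' v₀ hk'
      exact ⟨x, col, ⟨hn, h1, h2⟩, h3, h4, h5⟩

end Pool.Agent.Results.MP_c83083_co.AlternatingCycles
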